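import Pool.Agent.R3.Stmts

set_option autoImplicit false

/-! Down triangles. -/

namespace Pool.Agent.R3.H20

theorem dnt : DntStmt := by
  intro b c p i j m hp
  obtain ⟨x, y⟩ := p
  have hne : x ≠ b ∨ y ≠ c := by
    by_contra h
    push Not at h
    exact hp (by rw [h.1, h.2])
  fin_cases i <;> fin_cases j <;> fin_cases m <;>
    simp [om, dl, ind] <;> split_ifs <;> omega

end Pool.Agent.R3.H20
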