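import Pool.Agent.R3.Stmts

set_option autoImplicit false

/-! Row retractions. -/

namespace Pool.Agent.R3.H20

open Function

variable {V : Type} [Fintype V] [DecidableEq V] {σ : Fin 3 → Equiv.Perm V}

theorem ct_update (l : V → Fin 3) (v : V) (j m : Fin 3) :
    (ct (update l v j) m : ℤ) = ct l m - (if l v = m then 1 else 0) + (if j = m then 1 else 0) := by
  have h1 : ∀ l' : V → Fin 3, (ct l' m : ℤ) = ∑ u : V, if l' u = m then (1 : ℤ) else 0 := by
    intro l'
    unfold ct
    rw [Finset.sum_boole]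
  rw [h1, h1, ← Finset.add_sum_erase _ _ (Finset.mem_univ v),
    ← Finset.add_sum_erase (Finset.univ) (fun u => if l u = m then (1 : ℤ) else 0)
      (Finset.mem_univ v), update_self]
  have h2 : ∑ x ∈ Finset.univ.erase v, (if update l v j x = m then (1 : ℤ) else 0) =
      ∑ x ∈ Finset.univ.erase v, (if l x = m then (1 : ℤ) else 0) := by
    apply Finset.sum_congr rfl
    intro x hx
    rw [update_of_ne (Finset.ne_of_mem_erase hx)]
  rw [h2]
  ring

theorem pt_update (l : V → Fin 3) (v : V) (j : Fin 3) :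
    pt (update l v j) = pt l - dl (l v) + dl j := by
  unfold pt dl
  apply Prod.ext
  · simp only [ct_update, Prod.fst_sub, Prod.fst_add]
  · simp only [ct_update, Prod.snd_sub, Prod.snd_add]

theorem dl_zero : dl 0 = 0 := by
  unfold dl
  rfl

theorem pt_zero (l : V → Fin 3) (v : V) : pt l = pt (update l v 0) + dl (l v) := by
  rw [pt_update, dl_zero]
  simp

theorem ly_ne (h0 : σ 0 = 1) {l : V → Fin 3} {x y : V} (h : NP σ l x y) (hxy : x ≠ y) :
    l y ≠ 0 := by
  intro hy
  apply h.2.1 y hxy.symm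
  unfold ph
  rw [hy, h0]
  rfl

theorem lp_ne (h0 : σ 0 = 1) {l : V → Fin 3} {x p : V} (hp : p ≠ x) (h : ph σ l p = x) :
    l p ≠ 0 := by
  intro hy
  apply hp
  rw [← h]
  unfold ph
  rw [hy, h0]
  rfl

theorem ph_of_ne {l : V → Fin 3} {v w : V} {j : Fin 3} (h : v ≠ w) :
    ph σ (update l w j) v = ph σ l v := by
  unfold ph
  rw [update_of_ne h]

theorem ph_self (h0 : σ 0 = 1) (l : V → Fin 3) (v : V) : ph σ (update l v 0) v = v := by
  unfold ph
  rw [update_self, h0]
  rfl

theorem ph_zero (h0 : σ 0 = 1) {l : V → Fin 3} {v : V} (h : l v = 0) : ph σ l v = v := by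
  unfold ph
  rw [h, h0]
  rfl

theorem np_col (h0 : σ 0 = 1) {l : V → Fin 3} {x y : V} (h : NP σ l x y) (hxy : x ≠ y) :
    NP σ (update l y 0) x (ph σ l y) := by
  obtain ⟨a1, a2, a3⟩ := h
  have hyy : ph σ l y ≠ y := a2 y hxy.symm
  refine ⟨by rw [update_of_ne hxy, a1], ?_, ?_⟩
  · intro v hv
    by_cases hvy : v = y
    · rw [hvy, ph_self h0]
      exact hyy.symm
    · rw [ph_of_ne hvy]
      intro h
      exact hvy (a3 v y hv hxy.symm h)
  · intro v w hv hw hvw
    by_cases hvy : v = y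
    · by_cases hwy : w = y
      · rw [hvy, hwy]
      · rw [hvy, ph_self h0, ph_of_ne hwy] at hvw
        exact absurd hvw.symm (a2 w hw)
    · by_cases hwy : w = y
      · rw [hwy, ph_self h0, ph_of_ne hvy] at hvw
        exact absurd hvw (a2 v hv)
      · rw [ph_of_ne hvy, ph_of_ne hwy] at hvw
        exact a3 v w hv hw hvw

theorem np_row (h0 : σ 0 = 1) {l : V → Fin 3} {x y p : V} (h : NP σ l x y) (hxy : x ≠ y)
    (hp : p ≠ x) (hpx : ph σ l p = x) : NP σ (update l p 0) p y := by
  obtain ⟨a1, a2, a3⟩ := h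
  have hx : ph σ (update l p 0) x = x := by
    rw [ph_of_ne hp.symm]
    exact ph_zero h0 a1
  refine ⟨by rw [update_self], ?_, ?_⟩
  · intro v hv
    by_cases hvx : v = x
    · rw [hvx, hx]
      exact hxy
    · rw [ph_of_ne hv]
      exact a2 v hvx
  · intro v w hv hw hvw
    by_cases hvx : v = x
    · by_cases hwx : w = x
      · rw [hvx, hwx]
      · rw [hvx, hx, ph_of_ne hw] at hvw
        exact absurd (a3 w p hwx hp (hvw.symm.trans hpx.symm)) hw
    · by_cases hwx : w = x
      · rw [hwx, hx, ph_of_ne hv] at hvw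
        exact absurd (a3 v p hvx hp (hvw.trans hpx.symm)) hv
      · rw [ph_of_ne hv, ph_of_ne hw] at hvw
        exact a3 v w hvx hwx hvw

theorem Fd_step (b c : ℤ) (B : (V → Fin 3) → ℤ) {l : V → Fin 3} {x y : V} (hxy : x ≠ y)
    (hy : l y ≠ 0) : Fd σ b c B l x y =
      W b c l (update l y 0) + Fd σ b c B (update l y 0) x (ph σ l y) := by
  conv_lhs => rw [Fd]
  rw [dif_pos ⟨hxy, hy⟩]

theorem Fd_end (b c : ℤ) (B : (V → Fin 3) → ℤ) (l : V → Fin 3) (x : V) :
    Fd σ b c B l x x = B l := by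
  rw [Fd, dif_neg]
  rintro ⟨h, -⟩
  exact h rfl

theorem ret_step {l : V → Fin 3} {x y : V} (hxy : x ≠ y)
    (hy : l y ≠ 0) : ret σ l x y = ret σ (update l y 0) x (ph σ l y) := by
  conv_lhs => rw [ret]
  rw [dif_pos ⟨hxy, hy⟩]

theorem ret_end (l : V → Fin 3) (x : V) : ret σ l x x = l := by
  rw [ret, dif_neg]
  rintro ⟨h, -⟩
  exact h rfl

theorem fdr (sqa : SqaStmt) : FdrStmt := by
  intro V _ _ σ b c d hC B l x y p
  obtain ⟨h0, hd, hmiss, -⟩ := hC
  obtain ⟨N, hN⟩ : ∃ N, nu l = N := ⟨_, rfl⟩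
  induction N using Nat.strong_induction_on generalizing l x y p with
  | _ N ih =>
    intro hNP hxy hp hpx
    have hy := ly_ne h0 hNP hxy
    have hlp := lp_ne h0 hp hpx
    rw [Fd_step b c B hxy hy, ret_step hxy hy]
    by_cases hpy : p = y
    · subst hpy
      rw [hpx, Fd_end, Fd_end, ret_end, ret_end]
      exact ⟨rfl, rfl⟩
    · have hy1 : x ≠ ph σ l y := by
        intro h
        exact hpy (hNP.2.2 p y hp hxy.symm (hpx.trans h))
      have n1 := np_col h0 hNP hxy
      have n2 := np_row h0 hNP hxy hp hpx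
      have hpx1 : ph σ (update l y 0) p = x := by
        rw [ph_of_ne hpy]
        exact hpx
      have n12 := np_row h0 n1 hy1 hp hpx1
      obtain ⟨i1, i2⟩ := ih (nu (update l y 0)) (by rw [← hN]; exact nu_lt hy) (update l y 0) x
        (ph σ l y) p rfl n1 hy1 hp hpx1
      have hy2 : update l p 0 y ≠ 0 := by
        rw [update_of_ne (Ne.symm hpy)]
        exact hy
      have hph : ph σ (update l p 0) y = ph σ l y := ph_of_ne (Ne.symm hpy)
      have hcomm : update (update l p 0) y 0 = update (update l y 0) p 0 :=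
        update_comm hpy 0 0 l
      rw [Fd_step b c B hpy hy2, ret_step hpy hy2, hph, hcomm, i1, i2]
      refine ⟨?_, rfl⟩
      obtain ⟨k, hk⟩ : ∃ k, k = pt (update (update l y 0) p 0) := ⟨_, rfl⟩
      have e1 : pt (update l y 0) = k + dl 0 + dl (l p) := by
        rw [pt_zero (update l y 0) p, ← hk, update_of_ne hpy, dl_zero, add_zero]
      have e2 : pt (update l p 0) = k + dl (l y) + dl 0 := by
        rw [pt_zero (update l p 0) y, hcomm, ← hk, update_of_ne (Ne.symm hpy), dl_zero, add_zero]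
      have e0 : pt l = k + dl (l y) + dl (l p) := by
        rw [pt_zero l y, e1, dl_zero]
        abel
      have e3 : pt (update (update l y 0) p 0) = k + dl 0 + dl 0 := by
        rw [← hk, dl_zero, add_zero, add_zero]
      have hs := sqa b c d k (l y) 0 (l p) 0 hd
        (by rw [← e0]; exact hmiss l x y hNP)
        (by rw [← e1]; exact hmiss _ _ _ n1)
        (by rw [← e3]; exact hmiss _ _ _ n12)
        (by rw [← e2]; exact hmiss _ _ _ n2)
      rw [← e0, ← e1, ← e2, ← e3] at hs
      unfold W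
      linarith

end Pool.Agent.R3.H20
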