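import Pool.Agent.R3.Stmts

set_option autoImplicit false

/-! Squares. -/

namespace Pool.Agent.R3.H20

theorem sqa : SqaStmt := by
  intro b c d k i i' j j' hd h1 h2 h3 h4
  obtain ⟨x, y⟩ := k
  obtain ⟨u, v⟩ := d
  have hd' : (u = b ∧ v = c) ∨ (u = b - 1 ∧ v = c) ∨ (u = b ∧ v = c - 1) := by
    rcases hd with h | h | h
    · exact Or.inl (Prod.mk.inj h)
    · exact Or.inr (Or.inl (Prod.mk.inj h))
    · exact Or.inr (Or.inr (Prod.mk.inj h))
  clear hd
  fin_cases i <;> fin_cases i' <;> fin_cases j <;> fin_cases j' <;>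
    simp [om, dl, ind] at h1 h2 h3 h4 ⊢ <;> split_ifs <;> omega

end Pool.Agent.R3.H20
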