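import Pool.Agent.R3.Stmts

set_option autoImplicit false

/-! Up triangles. -/

namespace Pool.Agent.R3.H20

theorem ind_succ (b t : ℤ) : ind b (t + 1) = if b ≤ t + 1 then 1 else 0 := rfl

theorem upt : UptStmt := by
  intro b c k i j m
  obtain ⟨x, y⟩ := k
  fin_cases i <;> fin_cases j <;> fin_cases m <;>
    simp [om, dl, ind] <;> split_ifs <;> omega

end Pool.Agent.R3.H20
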