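import Pool.Agent.Helper21_R3.Kit

set_option autoImplicit false

/-! The contradiction. -/

namespace Pool.Agent.R3.H20

open Function
open Pool.Agent.R3.Kit

variable {V : Type} [Fintype V] [DecidableEq V] {σ : Fin 3 → Equiv.Perm V}

theorem Ps_vanish (b c : ℤ) (Q : (V → Fin 3) → Prop)
    (hst : ∀ (l : V → Fin 3) (v : V), Q l → Q (update l v 0))
    (hW : ∀ l l' : V → Fin 3, Q l → Q l' → W b c l l' = 0) (l : V → Fin 3) (x y : V)
    (hl : Q l) : Ps σ b c l x y = 0 := by
  obtain ⟨N, hN⟩ : ∃ N, nu l = N := ⟨_, rfl⟩
  induction N using Nat.strong_induction_on generalizing l x y with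
  | _ N ih =>
    rw [Ps]
    split_ifs with h h'
    · rw [hW _ _ hl (hst _ _ hl), zero_add]
      exact ih _ (by rw [← hN]; exact nu_lt h.2) _ _ _ (hst _ _ hl) rfl
    · rw [hW _ _ hl (hst _ _ hl), zero_add]
      exact ih _ (by rw [← hN]; exact nu_lt h'.choose_spec) _ _ _ (hst _ _ hl) rfl
    · rfl

theorem ct_eq_zero {l : V → Fin 3} {j : Fin 3} (h : ∀ v, l v ≠ j) : ct l j = 0 := by
  unfold ct
  rw [Finset.card_eq_zero, Finset.filter_eq_empty_iff]
  intro v _
  exact h v

theorem Ps_no_two (b c : ℤ) (hc : 1 ≤ c) {l : V → Fin 3} (x y : V) (h : ∀ v, l v ≠ 2) :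
    Ps σ b c l x y = 0 := by
  apply Ps_vanish b c (fun l => ∀ v, l v ≠ 2) _ _ l x y h
  · intro l v hl u
    by_cases huv : u = v
    · rw [huv, update_self]
      decide
    · rw [update_of_ne huv]
      exact hl u
  · intro l l' hl hl'
    unfold W om pt
    rw [ct_eq_zero hl]
    have : ind c (0 : ℤ) = 0 := by
      unfold ind
      rw [if_neg (by omega)]
    simp [this]

theorem Ps_no_one (b c : ℤ) {l : V → Fin 3} (x y : V) (h : ∀ v, l v ≠ 1) :
    Ps σ b c l x y = 0 := by
  apply Ps_vanish b c (fun l => ∀ v, l v ≠ 1) _ _ l x y h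
  · intro l v hl u
    by_cases huv : u = v
    · rw [huv, update_self]
      decide
    · rw [update_of_ne huv]
      exact hl u
  · intro l l' hl hl'
    unfold W om pt
    rw [ct_eq_zero hl, ct_eq_zero hl']
    simp

theorem ct_sum (l : V → Fin 3) : ct l 0 + ct l 1 + ct l 2 = Fintype.card V := by
  have h := Finset.card_eq_sum_card_fiberwise (f := l) (s := (Finset.univ : Finset V))
    (t := (Finset.univ : Finset (Fin 3))) (fun _ _ => Finset.mem_coe.2 (Finset.mem_univ _))
  rw [Fin.sum_univ_three, Finset.card_univ] at h
  exact h.symm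

/-- the sum of the weights -/
def Fs (b c n : ℤ) (u : ℕ) : ℤ :=
  ∑ i ∈ Finset.range u, om b c (n - 1 - (i + 1), (i : ℤ) + 1) (n - (i + 1), (i : ℤ))

theorem Fs_top (b c n : ℤ) (u : ℕ) (hb : 1 ≤ b) (hc : 1 ≤ c) (hn : b + c + 1 ≤ n)
    (hu : (u : ℤ) = n - 1) : Fs b c n u = 1 := by
  unfold Fs
  obtain ⟨k, hk⟩ : ∃ k : ℕ, (k : ℤ) = n - b - 1 := ⟨(n - b - 1).toNat, by omega⟩
  rw [Finset.sum_eq_single k]
  · unfold om ind
    rw [hk]
    simp only
    rw [if_pos (by omega), if_neg (by omega), if_pos (by omega), if_pos (by omega)]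
    norm_num
  · intro i _ hik
    unfold om
    have : ind b (n - (i + 1)) = ind b (n - 1 - (i + 1)) := by
      unfold ind
      have : (i : ℤ) ≠ n - b - 1 := by
        intro h
        apply hik
        omega
      by_cases h : b ≤ n - 1 - (i + 1)
      · rw [if_pos h, if_pos (by omega)]
      · rw [if_neg h, if_neg (by omega)]
    simp only [this]
    ring
  · intro h
    exfalso
    apply h
    rw [Finset.mem_range]
    omega

theorem pt_full {l : V → Fin 3} {x : V} (hx : l x = 0) (h : ∀ v, v ≠ x → l v ≠ 0) :
    pt l = ((Fintype.card V : ℤ) - 1 - (ct l 2 : ℤ), (ct l 2 : ℤ)) := by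
  have h0 : ct l 0 = 1 := by
    unfold ct
    rw [Finset.card_eq_one]
    refine ⟨x, ?_⟩
    ext v
    rw [Finset.mem_filter, Finset.mem_singleton]
    constructor
    · rintro ⟨-, hv⟩
      by_contra hvx
      exact h v hvx hv
    · rintro rfl
      exact ⟨Finset.mem_univ _, hx⟩
  have h1 := ct_sum l
  unfold pt
  apply Prod.ext
  · simp only
    omega
  · rfl

theorem wlk (dnt : DntStmt) (rwg : RwgStmt) : WlkStmt := by
  intro V _ _ σ b c d hC hX hb hc hn
  have hC' := hC
  obtain ⟨s0, -, -, hcen⟩ := hC
  -- the main induction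
  have main : ∀ (u : ℕ) (l : V → Fin 3) (x y : V), NP σ l x y → (∀ v, v ≠ x → l v ≠ 0) →
      ct l 2 = u → Ps σ b c l x y = Fs b c (Fintype.card V) u := by
    intro u
    induction u with
    | zero =>
      intro l x y hNP _ hct
      have h2 : ∀ v, l v ≠ 2 := by
        intro v hv
        have : v ∈ Finset.univ.filter (fun v => l v = 2) :=
          Finset.mem_filter.2 ⟨Finset.mem_univ _, hv⟩
        unfold ct at hct
        rw [Finset.card_eq_zero] at hct
        rw [hct] at this
        exact absurd this (Finset.notMem_empty _)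
      rw [Ps_no_two b c hc x y h2]
      simp [Fs]
    | succ u ih =>
      intro l x y hNP hnz hct
      have hpt := pt_full hNP.1 hnz
      -- it is enough to find the next state
      have enough : ∀ (l' : V → Fin 3) (x' y' : V), NP σ l' x' y' → (∀ v, v ≠ x' → l' v ≠ 0) →
          (ct l' 2 : ℤ) = (ct l 2 : ℤ) - 1 → Ps σ b c l x y = W b c l l' + Ps σ b c l' x' y' →
          Ps σ b c l x y = Fs b c (Fintype.card V) (u + 1) := by
        intro l' x' y' h1 h2 h3 h4
        have hct' : ct l' 2 = u := by
          rw [hct] at h3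
          push_cast at h3
          omega
        have hpt' := pt_full h1.1 h2
        rw [h4, ih l' x' y' h1 h2 hct']
        unfold Fs W
        rw [Finset.sum_range_succ, hpt, hpt', hct, hct', add_comm]
        congr 2
        apply Prod.ext
        · simp only
          ring
        · rfl
      by_cases hy : σ 1 x = y
      · -- the matching with the row `x`
        obtain ⟨P, hP⟩ : ∃ P, P = update l x 1 := ⟨_, rfl⟩
        have hPx : ph σ P x = y := by rw [hP, ph_self, hy]
        have hPv : ∀ v, v ≠ x → ph σ P v = ph σ l v := by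
          intro v hv
          rw [hP, ph_ne hv]
        have hPF : PF σ P := by
          intro v w hvw
          by_cases hvx : v = x
          · by_cases hwx : w = x
            · rw [hvx, hwx]
            · rw [hvx, hPx, hPv w hwx] at hvw
              exact absurd hvw.symm (hNP.2.1 w hwx)
          · by_cases hwx : w = x
            · rw [hwx, hPx, hPv v hvx] at hvw
              exact absurd hvw (hNP.2.1 v hvx)
            · rw [hPv v hvx, hPv w hwx] at hvw
              exact hNP.2.2 v w hvx hwx hvw
        have hne : (Finset.univ.filter (fun v => l v = 2)).Nonempty := by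
          rw [← Finset.card_pos]
          unfold ct at hct
          omega
        obtain ⟨g, hg⟩ := hne
        rw [Finset.mem_filter] at hg
        have hg2 : l g = 2 := hg.2
        have hgx : g ≠ x := by
          intro h
          rw [h, hNP.1] at hg2
          exact absurd hg2 (by decide)
        have hPg : P g = 2 := by
          rw [hP, update_of_ne hgx, hg2]
        have hPx1 : P x = 1 := by rw [hP, update_self]
        have hPl : update P x 0 = l := by
          rw [hP, update_idem]
          conv_lhs => rw [← hNP.1]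
          exact update_eq_self x l
        have hBg := hX (nu P) P hPF le_rfl x g (by rw [hPx1]; decide) (by rw [hPg]; decide)
        unfold Bg at hBg
        rw [hPl, hPx] at hBg
        have hdn := dnW0 dnt P (hcen P hPF) x g
        rw [hPl] at hdn
        apply enough (update P g 0) g (ph σ P g) (np_of_pf hPF g)
        · intro v hv
          rw [update_of_ne hv]
          by_cases hvx : v = x
          · rw [hvx, hPx1]
            decide
          · rw [hP, update_of_ne hvx]
            exact hnz v hvx
        · rw [Kit.ct_update, hP, Kit.ct_update, update_of_ne hgx, hg2, hNP.1]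
          simp
        · linarith
      · obtain ⟨g, hgx, hg⟩ := np_cov hNP hy
        have hg0 : l g ≠ 0 := hnz g hgx
        have hg1 : l g ≠ 1 := by
          intro h
          unfold ph at hg
          rw [h] at hg
          exact hgx ((σ 1).injective hg)
        have hg2 : l g = 2 := by
          have : ∀ t : Fin 3, t ≠ 0 → t ≠ 1 → t = 2 := by decide
          exact this _ hg0 hg1
        have hr := rwg V σ b c d hC' hX l x y g 1 hNP hgx hg0 (by decide) hg
        apply enough _ g y (np_rmv hNP hgx hg) _ _ hr
        · intro v hv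
          rw [update_of_ne hv]
          by_cases hvx : v = x
          · rw [hvx, update_self]
            decide
          · rw [update_of_ne hvx]
            exact hnz v hvx
        · rw [Kit.ct_update, Kit.ct_update, update_of_ne hgx, hg2, hNP.1]
          simp
  -- all labels two
  have hcard : 0 < Fintype.card V := by
    have : (0 : ℤ) < Fintype.card V := by omega
    exact_mod_cast this
  obtain ⟨x⟩ : Nonempty V := Fintype.card_pos_iff.1 hcard
  obtain ⟨l, hl⟩ : ∃ l : V → Fin 3, l = update (fun _ => 2) x 0 := ⟨_, rfl⟩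
  have hlx : l x = 0 := by rw [hl, update_self]
  have hlv : ∀ v, v ≠ x → l v = 2 := by
    intro v hv
    rw [hl, update_of_ne hv]
  have hph : ∀ v, v ≠ x → ph σ l v = σ 2 v := by
    intro v hv
    unfold ph
    rw [hlv v hv]
  have hNP : NP σ l x (σ 2 x) := by
    refine ⟨hlx, ?_, ?_⟩
    · intro v hv
      rw [hph v hv]
      intro h
      exact hv ((σ 2).injective h)
    · intro v w hv hw hvw
      rw [hph v hv, hph w hw] at hvw
      exact (σ 2).injective hvw
  have hnz : ∀ v, v ≠ x → l v ≠ 0 := by
    intro v hv
    rw [hlv v hv]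
    decide
  have hno : ∀ v, l v ≠ 1 := by
    intro v
    by_cases hv : v = x
    · rw [hv, hlx]
      decide
    · rw [hlv v hv]
      decide
  have h1 := main (ct l 2) l x (σ 2 x) hNP hnz rfl
  rw [Ps_no_one b c x (σ 2 x) hno] at h1
  have hc1 : ct l 1 = 0 := ct_eq_zero hno
  have hpt := pt_full hlx hnz
  have h2 : (ct l 2 : ℤ) = (Fintype.card V : ℤ) - 1 := by
    have := congrArg Prod.fst hpt
    have h3 : ((ct l 1 : ℤ)) = (Fintype.card V : ℤ) - 1 - (ct l 2 : ℤ) := this
    rw [hc1] at h3
    push_cast at h3
    linarith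
  rw [Fs_top b c _ _ hb hc hn h2] at h1
  exact absurd h1 (by norm_num)

end Pool.Agent.R3.H20
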